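import Pool.Agent.Q44.LogB

/-!
# From almost all short intervals to all short intervals at almost all integers

`Sm o t H g`: the interval `[t, t + H]` contains two consecutive terms of the sequence `o` at a distance at most `g`. From a
bound for the measure of the `t` in `[T, 2T]` without this property for single `H`, we bound the number of the integers
`m` such that it fails for some `t` in `[m, m + 1)` and some `H` in a long range.
-/

set_option autoImplicit false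

namespace Pool.Agent.Q233.ZG

open Filter MeasureTheory Set

/-- `[t, t + H]` contains two consecutive terms of the sequence `o` at a distance at most `g` -/
def Sm (o : ℕ → ℝ) (t H g : ℝ) : Prop :=
  ∃ n : ℕ, 1 ≤ n ∧ t ≤ o n ∧ o n ≤ o (n + 1) ∧ o (n + 1) ≤ t + H ∧ o (n + 1) - o n ≤ g

lemma Sm.mono {o : ℕ → ℝ} {t t' H H' g g' : ℝ} (h : Sm o t' H' g') (h1 : t ≤ t') (h2 : t' + H' ≤ t + H)
    (h3 : g' ≤ g) : Sm o t H g := by
  obtain ⟨n, a1, a2, a3, a4, a5⟩ := h
  exact ⟨n, a1, h1.trans a2, a3, a4.trans h2, a5.trans h3⟩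

/-- the bound for the gap -/
noncomputable def gb (C H T : ℝ) : ℝ :=
  4 * Real.pi / Real.log (T ^ 3 * H) * (1 + C * (Real.log (Real.log T) / Real.log T))

/-- for all `t` in `[m, m + 1)` and all `H` with `exp (log ^ δ m) ≤ H ≤ m` the interval `[t, t + H]` contains two
consecutive terms at a distance at most `(1 + ε) 4 π / log (m ^ 3 H)` -/
def Good (o : ℕ → ℝ) (δ ε : ℝ) (m : ℕ) : Prop :=
  ∀ t H : ℝ, (m : ℝ) ≤ t → t < m + 1 → Real.exp (Real.log m ^ δ) ≤ H → H ≤ m →
    Sm o t H ((1 + ε) * (4 * Real.pi / Real.log ((m : ℝ) ^ 3 * H)))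

lemma unit_count (V : Set ℝ) (v : ℝ) (hv0 : 0 ≤ v) (hV : volume V ≤ ENNReal.ofReal v) (F : Finset ℕ)
    (hF : ∀ m ∈ F, Icc ((m : ℝ) + 1) (m + 2) ⊆ V) : (F.card : ℝ) ≤ v := by
  have h1 : volume (⋃ m ∈ F, Ico ((m : ℝ) + 1) (m + 2)) = ∑ m ∈ F, volume (Ico ((m : ℝ) + 1) (m + 2)) := by
    refine measure_biUnion_finset ?_ fun m _ => measurableSet_Ico
    intro a _ b _ hab
    rw [Function.onFun, Set.disjoint_left]
    rintro x ⟨hx1, hx2⟩ ⟨hx3, hx4⟩
    apply hab
    have e1 : (a : ℝ) < b + 1 := by linarith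
    have e2 : (b : ℝ) < a + 1 := by linarith
    have e3 : a < b + 1 := by exact_mod_cast e1
    have e4 : b < a + 1 := by exact_mod_cast e2
    omega
  have h2 : ∑ m ∈ F, volume (Ico ((m : ℝ) + 1) (m + 2)) = F.card := by
    rw [Finset.sum_congr rfl (g := fun _ => (1 : ENNReal)) ?_]
    · simp
    · intro m _
      rw [Real.volume_Ico]
      have : (m : ℝ) + 2 - (m + 1) = 1 := by ring
      rw [this, ENNReal.ofReal_one]
  have h3 : volume (⋃ m ∈ F, Ico ((m : ℝ) + 1) (m + 2)) ≤ volume V := by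
    refine measure_mono ?_
    intro x hx
    rw [mem_iUnion₂] at hx
    obtain ⟨m, hm, hx⟩ := hx
    exact hF m hm (Ico_subset_Icc_self hx)
  rw [h1, h2] at h3
  have h4 := h3.trans hV
  rw [← ENNReal.ofReal_natCast] at h4
  exact (ENNReal.ofReal_le_ofReal_iff hv0).1 h4

/-- the hypothesis: for every `B` a bound `T / log ^ B T` for the measure -/
def Hyp (o : ℕ → ℝ) (K : ℕ) : Prop :=
  ∀ B : ℕ, ∃ C T0 : ℝ, 0 < C ∧ ∀ T H : ℝ, T0 ≤ T → Real.log T ^ (B + K) ≤ H → H ≤ T →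
    volume {t : ℝ | T ≤ t ∧ t ≤ 2 * T ∧ ¬ Sm o t H (gb C H T)} ≤ ENNReal.ofReal (T / Real.log T ^ B)

/-- one dyadic block -/
lemma block (o : ℕ → ℝ) (K : ℕ) (h : Hyp o K) (δ ε : ℝ) (hδ : 0 < δ) (hε : 0 < ε) (B : ℕ) :
    ∃ j₀ : ℕ, ∀ j : ℕ, j₀ ≤ j → ∀ F : Finset ℕ,
      (∀ m ∈ F, 2 ^ j ≤ m + 1 ∧ m + 1 < 2 ^ (j + 1) ∧ ¬ Good o δ ε m) →
      (F.card : ℝ) ≤ (j + 1) * ((2 : ℝ) ^ j / Real.log ((2 : ℝ) ^ j) ^ B) := by
  classical
  obtain ⟨C, T0, hC, h⟩ := h B
  -- conditions on T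
  have ev1 : ∀ᶠ T : ℝ in atTop, T0 ≤ T := eventually_ge_atTop _
  have ev2 : ∀ᶠ T : ℝ in atTop, 100 ≤ Real.log T := Real.tendsto_log_atTop.eventually_ge_atTop _
  have ev3 : ∀ᶠ T : ℝ in atTop, Real.log T ^ (B + K) ≤ Real.exp ((Real.log T / 2) ^ δ) / 4 := by
    have e1 : ∀ᶠ L : ℝ in atTop, L ^ (B + K) ≤ Real.exp ((L / 2) ^ δ) / 4 := by
      have e2 := (isLittleO_log_rpow_atTop hδ).bound (show (0 : ℝ) < (1 / 2 : ℝ) ^ δ / (B + K + 2) by positivity)
      filter_upwards [e2, eventually_ge_atTop (4 : ℝ)] with L hL hL4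
      have hlog : 0 ≤ Real.log L := Real.log_nonneg (by linarith)
      rw [Real.norm_of_nonneg hlog, Real.norm_of_nonneg (by positivity)] at hL
      have e3 : (B + K + 2 : ℝ) * Real.log L ≤ (L / 2) ^ δ := by
        have e4 : (L / 2) ^ δ = (1 / 2 : ℝ) ^ δ * L ^ δ := by
          rw [← Real.mul_rpow (by norm_num) (by linarith)]
          congr 1
          ring
        rw [e4]
        have e5 := mul_le_mul_of_nonneg_left hL (show (0 : ℝ) ≤ B + K + 2 by positivity)
        refine e5.trans (le_of_eq ?_)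
        field_simp
      have e6 : Real.exp ((B + K + 2 : ℝ) * Real.log L) ≤ Real.exp ((L / 2) ^ δ) := Real.exp_le_exp.2 e3
      have e7 : Real.exp ((B + K + 2 : ℝ) * Real.log L) = L ^ (B + K) * L ^ 2 := by
        rw [← pow_add]
        have e8 : ((B + K + 2 : ℕ) : ℝ) = (B + K + 2 : ℝ) := by push_cast; ring
        rw [← e8, mul_comm, ← Real.rpow_def_of_pos (by linarith), Real.rpow_natCast]
      rw [e7] at e6
      have e9 : (0 : ℝ) ≤ L ^ (B + K) := by positivity
      have e10 : (4 : ℝ) ≤ L ^ 2 := by nlinarith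
      nlinarith
    exact Real.tendsto_log_atTop.eventually e1
  have ev4 : ∀ᶠ T : ℝ in atTop, (1 + C * (Real.log (Real.log T) / Real.log T)) * (1 + 4 / Real.log T) ≤ 1 + ε := by
    have e1 : Tendsto (fun L : ℝ => (1 + C * (Real.log L / L)) * (1 + 4 / L)) atTop (nhds ((1 + C * 0) * (1 + 0))) := by
      refine Tendsto.mul ?_ ?_
      · refine tendsto_const_nhds.add (tendsto_const_nhds.mul ?_)
        have := Real.isLittleO_log_id_atTop.tendsto_div_nhds_zero
        exact this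
      · refine tendsto_const_nhds.add ?_
        exact tendsto_const_nhds.div_atTop tendsto_id
    have e2 : (1 + C * 0) * (1 + 0) < 1 + ε := by simp; exact hε
    exact Real.tendsto_log_atTop.eventually ((e1.eventually_lt_const e2).mono fun _ hx => le_of_lt hx)
  have ev5 : ∀ᶠ T : ℝ in atTop, 16 ≤ Real.exp ((Real.log T / 2) ^ δ) := by
    have e1 : Tendsto (fun T : ℝ => Real.exp ((Real.log T / 2) ^ δ)) atTop atTop :=
      Real.tendsto_exp_atTop.comp ((tendsto_rpow_atTop hδ).comp (Real.tendsto_log_atTop.atTop_div_const (by norm_num)))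
    exact e1.eventually_ge_atTop 16
  have hpow : Tendsto (fun j : ℕ => (2 : ℝ) ^ j) atTop atTop := tendsto_pow_atTop_atTop_of_one_lt (by norm_num)
  obtain ⟨j₀, hj₀⟩ := eventually_atTop.1 (hpow.eventually (ev1.and (ev2.and (ev3.and (ev4.and ev5)))))
  refine ⟨j₀, fun j hj F hF => ?_⟩
  obtain ⟨hT0, hlog, h3, h4, h5⟩ := hj₀ j hj
  set T : ℝ := (2 : ℝ) ^ j with hT
  have hTpos : 0 < T := by rw [hT]; positivity
  clear_value T
  have hT4 : 4 ≤ T := by
    have e1 := Real.log_le_sub_one_of_pos hTpos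
    linarith
  set V : ℕ → Set ℝ := fun i => {t : ℝ | T ≤ t ∧ t ≤ 2 * T ∧ ¬ Sm o t ((2 : ℝ) ^ i) (gb C ((2 : ℝ) ^ i) T)} with hVdef
  -- every bad integer gives a unit interval in some `V i` with an admissible `i`
  have key : ∀ m ∈ F, ∃ i ∈ Finset.range (j + 1), Real.log T ^ (B + K) ≤ (2 : ℝ) ^ i ∧ (2 : ℝ) ^ i ≤ T ∧
      Icc ((m : ℝ) + 1) (m + 2) ⊆ V i := by
    intro m hm
    obtain ⟨hm1, hm2, hbad⟩ := hF m hm
    have hm1' : T ≤ m + 1 := by rw [hT]; exact_mod_cast hm1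
    have hm2' : (m : ℝ) + 2 ≤ 2 * T := by
      have e1 : m + 2 ≤ 2 ^ (j + 1) := by omega
      have e2 : ((m + 2 : ℕ) : ℝ) ≤ ((2 ^ (j + 1) : ℕ) : ℝ) := by exact_mod_cast e1
      push_cast at e2
      rw [hT]
      linarith [pow_succ (2 : ℝ) j]
    unfold Good at hbad
    push Not at hbad
    obtain ⟨t, H, ht1, ht2, hH1, hH2, hns⟩ := hbad
    have hmT : T / 2 ≤ m := by linarith
    have hm0 : (0 : ℝ) < m := by linarith
    have hlogm : Real.log T / 2 ≤ Real.log m := by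
      have e1 : Real.log (T / 2) ≤ Real.log m := Real.log_le_log (by positivity) hmT
      rw [Real.log_div hTpos.ne' (by norm_num)] at e1
      have := Real.log_two_lt_d9
      linarith
    have hexp : Real.exp ((Real.log T / 2) ^ δ) ≤ H := by
      refine le_trans (Real.exp_le_exp.2 ?_) hH1
      exact Real.rpow_le_rpow (by linarith) hlogm hδ.le
    have hH16 : 16 ≤ H := h5.trans hexp
    have hfl : 1 ≤ ⌊H / 2⌋₊ := Nat.le_floor (by push_cast; linarith)
    set i : ℕ := Nat.log 2 ⌊H / 2⌋₊ with hi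
    have hi1 : (2 : ℝ) ^ i ≤ H / 2 := by
      have e1 : 2 ^ i ≤ ⌊H / 2⌋₊ := Nat.pow_log_le_self 2 (by omega)
      calc ((2 : ℝ) ^ i) = ((2 ^ i : ℕ) : ℝ) := by push_cast; rfl
        _ ≤ (⌊H / 2⌋₊ : ℝ) := by exact_mod_cast e1
        _ ≤ H / 2 := Nat.floor_le (by linarith)
    have hi2 : H / 2 < (2 : ℝ) ^ (i + 1) := by
      have e1 : ⌊H / 2⌋₊ < 2 ^ (i + 1) := Nat.lt_pow_succ_log_self (by norm_num) _
      have e2 : ⌊H / 2⌋₊ + 1 ≤ 2 ^ (i + 1) := e1
      calc H / 2 < (⌊H / 2⌋₊ : ℝ) + 1 := Nat.lt_floor_add_one _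
        _ ≤ ((2 ^ (i + 1) : ℕ) : ℝ) := by exact_mod_cast e2
        _ = (2 : ℝ) ^ (i + 1) := by push_cast; rfl
    have hiT : (2 : ℝ) ^ i ≤ T := by linarith
    have hij : i < j + 1 := by
      by_contra hcon
      push Not at hcon
      have e1 : (2 : ℝ) ^ (j + 1) ≤ (2 : ℝ) ^ i := pow_le_pow_right₀ (by norm_num) hcon
      have e2 : (2 : ℝ) ^ (j + 1) = 2 * T := by rw [hT, pow_succ]; ring
      linarith
    have hi0 : (0 : ℝ) < (2 : ℝ) ^ i := by positivity
    have hi4 : H < 4 * (2 : ℝ) ^ i := by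
      have := pow_succ (2 : ℝ) i
      linarith
    refine ⟨i, Finset.mem_range.2 hij, ?_, hiT, ?_⟩
    · refine h3.trans ?_
      linarith
    · intro t' ht'
      obtain ⟨ht'1, ht'2⟩ := ht'
      refine ⟨by linarith, by linarith, fun hs => hns ?_⟩
      refine hs.mono (by linarith) (by linarith) ?_
      -- the comparison of the bounds
      have hX0 : 0 < Real.log (T ^ 3 * (2 : ℝ) ^ i) := by
        rw [Real.log_mul (by positivity) hi0.ne', Real.log_pow, Real.log_pow]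
        have := Real.log_two_gt_d9
        have e1 : (0 : ℝ) ≤ (i : ℝ) * Real.log 2 := by positivity
        push_cast
        linarith
      have hX3 : 3 * Real.log T ≤ Real.log (T ^ 3 * (2 : ℝ) ^ i) := by
        rw [Real.log_mul (by positivity) hi0.ne', Real.log_pow, Real.log_pow]
        have := Real.log_two_gt_d9
        have e1 : (0 : ℝ) ≤ (i : ℝ) * Real.log 2 := by positivity
        push_cast
        linarith
      have hH0 : 0 < H := by linarith
      have hY : Real.log ((m : ℝ) ^ 3 * H) ≤ Real.log (T ^ 3 * (2 : ℝ) ^ i) + 12 := by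
        have e1 : (m : ℝ) ^ 3 * H ≤ (T ^ 3 * (2 : ℝ) ^ i) * 32 := by
          have e2 : (m : ℝ) ≤ 2 * T := by linarith
          have e3 : (m : ℝ) ^ 3 ≤ (2 * T) ^ 3 := pow_le_pow_left₀ hm0.le e2 3
          calc (m : ℝ) ^ 3 * H ≤ (2 * T) ^ 3 * (4 * (2 : ℝ) ^ i) :=
                mul_le_mul e3 hi4.le hH0.le (by positivity)
            _ = _ := by ring
        have e4 := Real.log_le_log (by positivity) e1
        have e6 : Real.log (T ^ 3 * (2 : ℝ) ^ i * 32) = Real.log (T ^ 3 * (2 : ℝ) ^ i) + Real.log 32 :=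
          Real.log_mul (by positivity) (by norm_num)
        rw [e6] at e4
        have e5 : Real.log 32 ≤ 12 := by
          have : (32 : ℝ) = 2 ^ 5 := by norm_num
          rw [this, Real.log_pow]
          have := Real.log_two_lt_d9
          push_cast
          linarith
        linarith
      have hY0 : 0 < Real.log ((m : ℝ) ^ 3 * H) := by
        apply Real.log_pos
        have e1 : (1 : ℝ) ≤ m := by linarith
        have e2 : (1 : ℝ) ≤ (m : ℝ) ^ 3 := one_le_pow₀ e1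
        have e3 : (1 : ℝ) * 16 ≤ (m : ℝ) ^ 3 * H := mul_le_mul e2 hH16 (by norm_num) (by linarith)
        linarith
      set X := Real.log (T ^ 3 * (2 : ℝ) ^ i) with hXdef
      set Y := Real.log ((m : ℝ) ^ 3 * H) with hYdef
      have hlogT : 0 < Real.log T := by linarith
      have hYX : Y ≤ X * (1 + 4 / Real.log T) := by
        have e1 : 12 ≤ X * (4 / Real.log T) := by
          rw [mul_div_assoc', le_div_iff₀ hlogT]
          linarith
        linarith
      have hpi := Real.pi_pos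
      unfold gb
      rw [← hXdef]
      have hD0 : 0 ≤ 1 + C * (Real.log (Real.log T) / Real.log T) := by
        have e1 : 0 ≤ Real.log (Real.log T) := Real.log_nonneg (by linarith)
        positivity
      rw [div_mul_eq_mul_div, div_le_iff₀ hX0]
      have e1 : (1 + ε) * (4 * Real.pi / Y) * X = 4 * Real.pi * ((1 + ε) * (X / Y)) := by ring
      rw [e1]
      refine mul_le_mul_of_nonneg_left ?_ (by positivity)
      rw [show (1 + ε) * (X / Y) = ((1 + ε) * X) / Y by ring, le_div_iff₀ hY0]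
      calc (1 + C * (Real.log (Real.log T) / Real.log T)) * Y
          ≤ (1 + C * (Real.log (Real.log T) / Real.log T)) * (X * (1 + 4 / Real.log T)) :=
            mul_le_mul_of_nonneg_left hYX hD0
        _ = ((1 + C * (Real.log (Real.log T) / Real.log T)) * (1 + 4 / Real.log T)) * X := by ring
        _ ≤ (1 + ε) * X := mul_le_mul_of_nonneg_right h4 hX0.le
  choose! f hf1 hf2 hf3 hf4 using key
  have hcard : ∀ i ∈ Finset.range (j + 1), ((F.filter fun m => f m = i).card : ℝ) ≤ T / Real.log T ^ B := by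
    intro i _
    rcases (F.filter fun m => f m = i).eq_empty_or_nonempty with he | ⟨m₀, hm₀⟩
    · rw [he]
      simp only [Finset.card_empty, Nat.cast_zero]
      have : 0 < Real.log T := by linarith
      positivity
    · rw [Finset.mem_filter] at hm₀
      obtain ⟨hm₀, rfl⟩ := hm₀
      have hvol := h T ((2 : ℝ) ^ (f m₀)) hT0 (hf2 m₀ hm₀) (hf3 m₀ hm₀)
      refine unit_count (V (f m₀)) _ ?_ hvol _ ?_
      · have : 0 < Real.log T := by linarith
        positivity
      · intro m hm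
        rw [Finset.mem_filter] at hm
        rw [← hm.2]
        exact hf4 m hm.1
  have hsum : F.card = ∑ i ∈ Finset.range (j + 1), (F.filter fun m => f m = i).card :=
    Finset.card_eq_sum_card_fiberwise fun m hm => hf1 m hm
  rw [hsum]
  push_cast
  calc ∑ i ∈ Finset.range (j + 1), ((F.filter fun m => f m = i).card : ℝ)
      ≤ ∑ i ∈ Finset.range (j + 1), T / Real.log T ^ B := Finset.sum_le_sum hcard
    _ = (j + 1) * (T / Real.log T ^ B) := by
        rw [Finset.sum_const, Finset.card_range, nsmul_eq_mul]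
        push_cast
        ring

/-- all integers -/
theorem logFew (o : ℕ → ℝ) (K : ℕ) (h : Hyp o K) (δ ε : ℝ) (hδ : 0 < δ) (hε : 0 < ε) (N₀ : ℕ) :
    Pool.Agent.Q44.CF.LogFew (fun m => ¬ Good o δ ε m ∨ m < N₀) := by
  classical
  refine Pool.Agent.Q44.CF.logFew_of (fun U hU => ?_) N₀
  set B : ℕ := ⌈U⌉₊ + 2 with hB
  have hUB : U + 2 ≤ (B : ℝ) := by
    rw [hB]
    push_cast
    linarith [Nat.le_ceil U]
  obtain ⟨j₀, hj₀⟩ := block o K h δ ε hδ hε B
  -- conditions on `X`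
  have ev1 : ∀ᶠ L : ℝ in atTop, L ^ (B : ℝ) ≤ Real.exp (L / 2) := by
    have e1 := (isLittleO_rpow_exp_pos_mul_atTop (B : ℝ) (show (0 : ℝ) < 1 / 2 by norm_num)).bound
      (show (0 : ℝ) < 1 by norm_num)
    filter_upwards [e1, eventually_gt_atTop (0 : ℝ)] with L hL hL0
    rw [Real.norm_of_nonneg (by positivity), Real.norm_of_nonneg (by positivity), one_mul] at hL
    refine hL.trans (le_of_eq ?_)
    congr 1
    ring
  have ev2 : ∀ᶠ X : ℕ in atTop, (Real.log X) ^ (B : ℝ) ≤ Real.exp (Real.log X / 2) :=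
    (Real.tendsto_log_atTop.comp tendsto_natCast_atTop_atTop).eventually ev1
  have ev3 : ∀ᶠ X : ℕ in atTop, (100 : ℝ) ≤ Real.log X :=
    (Real.tendsto_log_atTop.comp tendsto_natCast_atTop_atTop).eventually_ge_atTop 100
  have ev4 : ∀ᶠ X : ℕ in atTop, 2 ^ (2 * j₀ + 2) ≤ X := eventually_ge_atTop _
  obtain ⟨X₀, hX₀⟩ := eventually_atTop.1 (ev2.and (ev3.and ev4))
  refine ⟨8 ^ (B + 2), X₀, fun X hX F hF => ?_⟩
  obtain ⟨h2, h3, h4⟩ := hX₀ X hX
  have hX0 : (0 : ℝ) < X := by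
    by_contra hcon
    have : (X : ℝ) ≤ 0 := not_lt.1 hcon
    have e1 : (X : ℝ) = 0 := le_antisymm this (Nat.cast_nonneg _)
    rw [e1, Real.log_zero] at h3
    linarith
  set L : ℝ := Real.log X with hL
  have hL0 : 0 < L := by linarith
  set J : ℕ := Nat.log 2 (X + 1) with hJ
  have hJ1 : 2 ^ J ≤ X + 1 := Nat.pow_log_le_self 2 (by omega)
  have hJ2 : X + 1 < 2 ^ (J + 1) := Nat.lt_pow_succ_log_self (by norm_num) _
  have hl2a := Real.log_two_gt_d9
  have hl2b := Real.log_two_lt_d9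
  have hJL : L ≤ (J + 1) * Real.log 2 := by
    have e1 : (X : ℝ) ≤ (2 : ℝ) ^ (J + 1) := by
      have : X ≤ 2 ^ (J + 1) := by omega
      exact_mod_cast this
    have e2 := Real.log_le_log hX0 e1
    rw [Real.log_pow] at e2
    push_cast at e2
    exact e2
  have hJL2 : (J : ℝ) * Real.log 2 ≤ L + 1 := by
    have e1 : (2 : ℝ) ^ J ≤ 2 * X := by
      have e2 : ((2 ^ J : ℕ) : ℝ) ≤ ((X + 1 : ℕ) : ℝ) := by exact_mod_cast hJ1
      push_cast at e2
      have e3 : (1 : ℝ) ≤ X := by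
        have : 1 ≤ X := by exact_mod_cast hX0
        exact_mod_cast this
      linarith
    have e2 := Real.log_le_log (by positivity) e1
    rw [Real.log_pow, Real.log_mul (by norm_num) hX0.ne'] at e2
    linarith
  set j₁ : ℕ := (J + 1) / 2 with hj₁
  -- the small and the large integers
  have hsplit : F ⊆ Finset.range (2 ^ j₁) ∪ (Finset.Icc j₁ J).biUnion fun j =>
      F.filter fun m => 2 ^ j ≤ m + 1 ∧ m + 1 < 2 ^ (j + 1) := by
    intro m hm
    rw [Finset.mem_union, Finset.mem_range, Finset.mem_biUnion]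
    rcases lt_or_ge m (2 ^ j₁) with h5 | h5
    · exact Or.inl h5
    · refine Or.inr ⟨Nat.log 2 (m + 1), ?_, ?_⟩
      · rw [Finset.mem_Icc]
        refine ⟨?_, Nat.log_mono_right (by have := (hF m hm).2.1; omega)⟩
        exact (Nat.le_log_iff_pow_le (by norm_num) (by omega)).2 (by omega)
      · rw [Finset.mem_filter]
        exact ⟨hm, Nat.pow_log_le_self 2 (by omega), Nat.lt_pow_succ_log_self (by norm_num) _⟩
  have hj₀₁ : j₀ ≤ j₁ := by
    have e1 : 2 ^ (2 * j₀ + 2) < 2 ^ (J + 1) := by omega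
    have e2 := (Nat.pow_lt_pow_iff_right (by norm_num : 1 < 2)).1 e1
    omega
  have hblock : ∀ j ∈ Finset.Icc j₁ J,
      ((F.filter fun m => 2 ^ j ≤ m + 1 ∧ m + 1 < 2 ^ (j + 1)).card : ℝ) ≤
        (2 : ℝ) ^ j * ((J + 1) / (L / 4) ^ B) := by
    intro j hj
    rw [Finset.mem_Icc] at hj
    have e1 := hj₀ j (hj₀₁.trans hj.1) (F.filter fun m => 2 ^ j ≤ m + 1 ∧ m + 1 < 2 ^ (j + 1)) (fun m hm => by
      rw [Finset.mem_filter] at hm
      exact ⟨hm.2.1, hm.2.2, (hF m hm.1).2.2⟩)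
    refine e1.trans ?_
    have e2 : L / 4 ≤ Real.log ((2 : ℝ) ^ j) := by
      rw [Real.log_pow]
      have e3 : (J : ℝ) ≤ 2 * j := by
        have : J ≤ 2 * j := by omega
        exact_mod_cast this
      have e4 : (J : ℝ) * Real.log 2 ≤ 2 * (j * Real.log 2) := by
        have := mul_le_mul_of_nonneg_right e3 (show 0 ≤ Real.log 2 by linarith)
        linarith
      linarith
    have e3 : (L / 4) ^ B ≤ Real.log ((2 : ℝ) ^ j) ^ B := pow_le_pow_left₀ (by positivity) e2 B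
    have e4 : (2 : ℝ) ^ j / Real.log ((2 : ℝ) ^ j) ^ B ≤ (2 : ℝ) ^ j / (L / 4) ^ B :=
      div_le_div_of_nonneg_left (by positivity) (by positivity) e3
    have e5 : ((j : ℝ) + 1) ≤ J + 1 := by
      have : (j : ℝ) ≤ J := by exact_mod_cast hj.2
      linarith
    calc ((j : ℝ) + 1) * ((2 : ℝ) ^ j / Real.log ((2 : ℝ) ^ j) ^ B)
        ≤ (J + 1) * ((2 : ℝ) ^ j / (L / 4) ^ B) := mul_le_mul e5 e4
          (div_nonneg (by positivity) (pow_nonneg (by linarith) _)) (by positivity)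
      _ = _ := by ring
  have hgeo : ∑ j ∈ Finset.Icc j₁ J, (2 : ℝ) ^ j ≤ 4 * X := by
    have e1 : ∑ j ∈ Finset.Icc j₁ J, (2 : ℝ) ^ j ≤ ∑ j ∈ Finset.range (J + 1), (2 : ℝ) ^ j := by
      refine Finset.sum_le_sum_of_subset_of_nonneg ?_ fun _ _ _ => by positivity
      intro j hj
      rw [Finset.mem_Icc] at hj
      exact Finset.mem_range.2 (by omega)
    have e2 : ∑ j ∈ Finset.range (J + 1), (2 : ℝ) ^ j = 2 ^ (J + 1) - 1 := by
      have := geom_sum_eq (show (2 : ℝ) ≠ 1 by norm_num) (J + 1)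
      rw [this]
      norm_num
    have e3 : ((2 ^ J : ℕ) : ℝ) ≤ ((X + 1 : ℕ) : ℝ) := by exact_mod_cast hJ1
    push_cast at e3
    have e4 : (1 : ℝ) ≤ X := by
      have : 1 ≤ X := by exact_mod_cast hX0
      exact_mod_cast this
    rw [e2] at e1
    have e5 : (2 : ℝ) ^ (J + 1) = 2 * 2 ^ J := by ring
    linarith
  have hsmall : ((2 ^ j₁ : ℕ) : ℝ) ≤ 4 * (X / L ^ U) := by
    have e0 : 2 ^ (2 * j₁) ≤ 4 * X := by
      have e1 : 2 ^ (2 * j₁) ≤ 2 ^ (J + 1) := Nat.pow_le_pow_right (by norm_num) (by omega)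
      have e2 : 2 ^ (J + 1) = 2 * 2 ^ J := by ring
      have e3 : 1 ≤ X := by exact_mod_cast hX0
      omega
    have e1 : ((2 ^ j₁ : ℕ) : ℝ) ^ 2 ≤ 4 * X := by
      have e2 : (2 ^ j₁) ^ 2 ≤ 4 * X := by rw [← pow_mul, mul_comm j₁ 2]; exact e0
      exact_mod_cast e2
    have e2 : Real.exp (L / 2) ^ 2 = X := by
      rw [← Real.exp_nat_mul]
      push_cast
      rw [show (2 : ℝ) * (L / 2) = L by ring, hL, Real.exp_log hX0]
    have e3 : ((2 ^ j₁ : ℕ) : ℝ) ≤ 2 * Real.exp (L / 2) := by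
      refine le_of_sq_le_sq ?_ (by positivity)
      rw [mul_pow, e2]
      linarith
    have e4 : L ^ U ≤ L ^ (B : ℝ) := Real.rpow_le_rpow_of_exponent_le (by linarith) (by linarith)
    have e5 : L ^ U ≤ Real.exp (L / 2) := e4.trans h2
    have e6 : Real.exp (L / 2) ≤ X / L ^ U := by
      rw [le_div_iff₀ (by positivity)]
      calc Real.exp (L / 2) * L ^ U ≤ Real.exp (L / 2) * Real.exp (L / 2) :=
            mul_le_mul_of_nonneg_left e5 (by positivity)
        _ = Real.exp (L / 2) ^ 2 := by ring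
        _ = X := e2
    have e7 : 0 < Real.exp (L / 2) := Real.exp_pos _
    linarith
  have hlarge : 4 * X * ((J + 1) / (L / 4) ^ B) ≤ 4 ^ (B + 2) * (X / L ^ U) := by
    have e1 : (J : ℝ) + 1 ≤ 4 * L := by nlinarith
    have e2 : (L / 4) ^ B = L ^ B / 4 ^ B := by rw [div_pow]
    have e3 : L * L ^ U ≤ L ^ B := by
      have e4 : L * L ^ U = L ^ (1 + U) := by rw [Real.rpow_add hL0, Real.rpow_one]
      rw [e4, ← Real.rpow_natCast]
      exact Real.rpow_le_rpow_of_exponent_le (by linarith) (by linarith)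
    rw [e2]
    have e5 : 4 * X * (((J : ℝ) + 1) / (L ^ B / 4 ^ B)) = 4 * 4 ^ B * X * ((J + 1) / L ^ B) := by
      field_simp
    rw [e5]
    have e6 : ((J : ℝ) + 1) / L ^ B ≤ 4 / L ^ U := by
      rw [div_le_div_iff₀ (by positivity) (by positivity)]
      calc ((J : ℝ) + 1) * L ^ U ≤ (4 * L) * L ^ U := mul_le_mul_of_nonneg_right e1 (by positivity)
        _ = 4 * (L * L ^ U) := by ring
        _ ≤ 4 * L ^ B := by linarith
    calc 4 * 4 ^ B * X * (((J : ℝ) + 1) / L ^ B) ≤ 4 * 4 ^ B * X * (4 / L ^ U) :=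
          mul_le_mul_of_nonneg_left e6 (by positivity)
      _ = _ := by ring
  have hcard : (F.card : ℝ) ≤ ((2 ^ j₁ : ℕ) : ℝ) + ∑ j ∈ Finset.Icc j₁ J,
      ((F.filter fun m => 2 ^ j ≤ m + 1 ∧ m + 1 < 2 ^ (j + 1)).card : ℝ) := by
    have e1 := (Finset.card_le_card hsplit).trans ((Finset.card_union_le _ _).trans
      (Nat.add_le_add_left Finset.card_biUnion_le _))
    rw [Finset.card_range] at e1
    exact_mod_cast e1
  have hXU : 0 ≤ X / L ^ U := by positivity
  calc (F.card : ℝ) ≤ ((2 ^ j₁ : ℕ) : ℝ) + ∑ j ∈ Finset.Icc j₁ J,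
      ((F.filter fun m => 2 ^ j ≤ m + 1 ∧ m + 1 < 2 ^ (j + 1)).card : ℝ) := hcard
    _ ≤ 4 * (X / L ^ U) + ∑ j ∈ Finset.Icc j₁ J, (2 : ℝ) ^ j * ((J + 1) / (L / 4) ^ B) :=
        add_le_add hsmall (Finset.sum_le_sum hblock)
    _ = 4 * (X / L ^ U) + (∑ j ∈ Finset.Icc j₁ J, (2 : ℝ) ^ j) * ((J + 1) / (L / 4) ^ B) := by
        rw [Finset.sum_mul]
    _ ≤ 4 * (X / L ^ U) + 4 * X * ((J + 1) / (L / 4) ^ B) := by
        have : 0 ≤ ((J : ℝ) + 1) / (L / 4) ^ B := by positivity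
        linarith [mul_le_mul_of_nonneg_right hgeo this]
    _ ≤ 4 * (X / L ^ U) + 4 ^ (B + 2) * (X / L ^ U) := by linarith
    _ ≤ 8 ^ (B + 2) * (X / L ^ U) := by
        have e1 : (4 : ℝ) + 4 ^ (B + 2) ≤ 8 ^ (B + 2) := by
          have e2 : (8 : ℝ) ^ (B + 2) = 2 ^ (B + 2) * 4 ^ (B + 2) := by
            rw [← mul_pow]; norm_num
          have e3 : (2 : ℝ) ≤ 2 ^ (B + 2) := by
            calc (2 : ℝ) = 2 ^ 1 := by norm_num
              _ ≤ 2 ^ (B + 2) := pow_le_pow_right₀ (by norm_num) (by omega)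
          have e4 : (4 : ℝ) ≤ 4 ^ (B + 2) := by
            calc (4 : ℝ) = 4 ^ 1 := by norm_num
              _ ≤ 4 ^ (B + 2) := pow_le_pow_right₀ (by norm_num) (by omega)
          rw [e2]
          nlinarith
        nlinarith
    _ = 8 ^ (B + 2) * X / L ^ U := by ring

end Pool.Agent.Q233.ZG
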